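import Mathlib
import Pool.Agent.Helper37HC.Cnt

/-!
# Hilbert cubes: sums which are divisible by a high power of a prime
-/

set_option autoImplicit false

namespace Pool.Agent.Helper37EX

open Finset Pool.Agent.Helper37HC

/-- the element of a Hilbert cube given by a set of indices -/
def val {k : ℕ} (a₀ : ℤ) (u : Fin k → ℤ) (S : Finset (Fin k)) : ℤ := a₀ + ∑ i ∈ S, u i

lemma val_sub {k : ℕ} (a₀ : ℤ) (u : Fin k → ℤ) (i : Fin k) (S : Finset (Fin k)) {n : ℤ}
    (h : ∀ j, j ≠ i → n ∣ u j) : n ∣ val a₀ u S - (a₀ + if i ∈ S then u i else 0) := by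
  unfold val
  by_cases hi : i ∈ S
  · rw [if_pos hi, ← Finset.add_sum_erase S u hi]
    have : a₀ + (u i + ∑ x ∈ S.erase i, u x) - (a₀ + u i) = ∑ x ∈ S.erase i, u x := by ring
    rw [this]
    exact Finset.dvd_sum fun j hj => h j (ne_of_mem_erase hj)
  · rw [if_neg hi, add_zero, add_sub_cancel_left]
    exact Finset.dvd_sum fun j hj => h j (fun hji => hi (hji ▸ hj))

theorem noise (δ : ℝ) (hδ : 0 < δ) : ∃ m M : ℕ, 2 ≤ m ∧ 1 ≤ M ∧
    ∀ (k : ℕ) (a₀ : ℤ) (u : Fin k → ℤ) (i : Fin k) (p e f : ℕ) (good : Prop),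
      p.Prime → (∀ j, u j ≠ 0) → (∀ j, j ≠ i → ((p ^ e : ℕ) : ℤ) ∣ u j) →
      (∀ S : Finset (Fin k), (i ∈ S ↔ good) → ((p ^ e : ℕ) : ℤ) ∣ a₀ + if i ∈ S then u i else 0) →
      M ≤ (univ.filter fun j => j ≠ i ∧ ¬ ((p ^ (e + 1) : ℕ) : ℤ) ∣ u j).card → m ≤ p ^ f →
      ∀ D : Finset (Finset (Fin k)), (∀ S ∈ D, (i ∈ S ↔ good) ∧ ((p ^ (e + f) : ℕ) : ℤ) ∣ val a₀ u S) →
      (D.card : ℝ) ≤ δ * 2 ^ k := by
  classical
  obtain ⟨m, Λ, M, hm, -, hM, h⟩ := spr_count δ hδ 2
  refine ⟨m, M, hm, hM, ?_⟩
  intro k a₀ u i p e f good hp hu hdvd hgood hMc hmf D hD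
  obtain ⟨G, hG⟩ : ∃ G : ℤ, G = a₀ + if good then u i else 0 := ⟨_, rfl⟩
  have hGd : ((p ^ e : ℕ) : ℤ) ∣ G := by
    by_cases hg : good
    · have := hgood {i} (by simp [hg])
      rw [if_pos (mem_singleton_self i)] at this
      rw [hG, if_pos hg]
      exact this
    · have := hgood ∅ (by simp [hg])
      rw [if_neg (notMem_empty i)] at this
      rw [hG, if_neg hg]
      exact this
  obtain ⟨A, hA⟩ : ∃ A : Fin k → Finset ℤ,
      A = fun j => if j = i then {a₀, a₀ + u i} else {0, u j} := ⟨_, rfl⟩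
  have hAi : A i = {a₀, a₀ + u i} := by rw [hA]; simp
  have hAj : ∀ j, j ≠ i → A j = {0, u j} := fun j hj => by rw [hA]; simp [hj]
  obtain ⟨a, ha⟩ : ∃ a : Fin k → ℤ, a = fun j => if j = i then G else 0 := ⟨_, rfl⟩
  have hcard : ∀ j, (A j).card = 2 := by
    intro j
    by_cases hj : j = i
    · rw [hj, hAi, card_pair]
      intro h0
      exact hu i (by linarith)
    · rw [hAj j hj, card_pair (hu j).symm]
  have hmem : ∀ j, a j ∈ A j := by
    intro j
    by_cases hj : j = i
    · rw [hj, hAi, ha]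
      simp only [if_true]
      rw [hG]
      by_cases hg : good
      · simp [hg]
      · simp [hg]
    · rw [hAj j hj, ha]
      simp [hj]
  have h1 : ∀ j ∈ univ.erase i, Dv (p ^ e) (A j) := by
    intro j hj x hx y hy
    have hji := ne_of_mem_erase hj
    rw [hAj j hji, mem_insert, mem_singleton] at hx hy
    have hd := hdvd j hji
    rcases hx with rfl | rfl <;> rcases hy with rfl | rfl
    · simp
    · rw [zero_sub]; exact (dvd_neg).2 hd
    · rw [sub_zero]; exact hd
    · simp
  have haF : a ∈ Fintype.piFinset (Bf A (univ.erase i) a) :=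
    mem_Bf.2 ⟨fun j _ => hmem j, fun j _ => rfl⟩
  have hsa : ∑ j, a j = G := by
    rw [ha]
    simp
  have h2 : ∀ x ∈ Fintype.piFinset (Bf A (univ.erase i) a), ((p ^ e : ℕ) : ℤ) ∣ ∑ j, x j := by
    intro x hx
    have h3 := sum_sub_dvd h1 hx haF
    rw [hsa] at h3
    simpa using dvd_add h3 hGd
  have h3 := h k A (univ.erase i) a p e f (fun j => by rw [hcard j]) (fun j => Or.inl (by
    rw [hcard j])) hp hmem h1 h2 ⟨univ.filter fun j => j ≠ i ∧ ¬ ((p ^ (e + 1) : ℕ) : ℤ) ∣ u j,
      fun j hj => mem_erase.2 ⟨(mem_filter.1 hj).2.1, mem_univ _⟩, fun j hj hDv => by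
        obtain ⟨hji, hnd⟩ := (mem_filter.1 hj).2
        apply hnd
        have := hDv (u j) (by rw [hAj j hji]; simp) 0 (by rw [hAj j hji]; simp)
        simpa using this, Or.inl hMc⟩ hmf
  -- the product
  have h4 : ∏ j, ((Bf A (univ.erase i) a j).card : ℝ) ≤ 2 ^ k := by
    calc ∏ j, ((Bf A (univ.erase i) a j).card : ℝ) ≤ ∏ _j : Fin k, (2 : ℝ) := by
          refine Finset.prod_le_prod (fun _ _ => Nat.cast_nonneg _) fun j _ => ?_
          unfold Bf
          split_ifs with hj
          · rw [hcard j]; norm_num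
          · rw [card_singleton]; norm_num
      _ = 2 ^ k := by rw [Finset.prod_const, card_univ, Fintype.card_fin]
  have h5 : D.card ≤ ((Fintype.piFinset (Bf A (univ.erase i) a)).filter fun x =>
      ((p ^ (e + f) : ℕ) : ℤ) ∣ ∑ j, x j).card := by
    refine card_le_card_of_injOn (fun S j => if j = i then G else if j ∈ S then u j else 0) ?_ ?_
    · intro S hS
      obtain ⟨hSg, hSd⟩ := hD S hS
      rw [mem_coe, mem_filter, mem_Bf]
      refine ⟨⟨fun j hj => ?_, fun j hj => ?_⟩, ?_⟩
      · have hji := ne_of_mem_erase hj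
        rw [hAj j hji]
        simp only [hji, if_false]
        by_cases hjS : j ∈ S <;> simp [hjS]
      · have hji : j = i := by
          by_contra hji
          exact hj (mem_erase.2 ⟨hji, mem_univ _⟩)
        simp [hji, ha]
      · have e1 : ∑ j, (if j = i then G else if j ∈ S then u j else 0) = val a₀ u S := by
          rw [← Finset.add_sum_erase univ _ (mem_univ i)]
          simp only [if_true]
          have e2 : ∑ j ∈ univ.erase i, (if j = i then G else if j ∈ S then u j else 0) =
              ∑ j ∈ S.erase i, u j := by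
            rw [show S.erase i = (univ.erase i).filter fun j => j ∈ S by
              ext j; simp [mem_erase]]
            rw [Finset.sum_filter]
            refine Finset.sum_congr rfl fun j hj => ?_
            rw [if_neg (ne_of_mem_erase hj)]
          rw [e2, hG]
          unfold val
          by_cases hi : i ∈ S
          · rw [if_pos (hSg.1 hi), ← Finset.add_sum_erase S u hi]
            ring
          · rw [if_neg fun hg => hi (hSg.2 hg), Finset.erase_eq_of_notMem hi]
            ring
        simp only [e1]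
        exact hSd
    · intro S hS R hR hSR
      obtain ⟨hSg, -⟩ := hD S hS
      obtain ⟨hRg, -⟩ := hD R hR
      ext j
      by_cases hji : j = i
      · rw [hji, hSg, hRg]
      · have := congrFun hSR j
        simp only [hji, if_false] at this
        by_cases h6 : j ∈ S <;> by_cases h7 : j ∈ R
        · exact iff_of_true h6 h7
        · rw [if_pos h6, if_neg h7] at this
          exact absurd this (hu j)
        · rw [if_neg h6, if_pos h7] at this
          exact absurd this.symm (hu j)
        · exact iff_of_false h6 h7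
  calc (D.card : ℝ) ≤ _ := by exact_mod_cast h5
    _ ≤ δ * ∏ j, ((Bf A (univ.erase i) a j).card : ℝ) := h3
    _ ≤ δ * 2 ^ k := mul_le_mul_of_nonneg_left h4 hδ.le

end Pool.Agent.Helper37EX
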