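import Mathlib
import Pool.Agent.Helper37EX.Basic
import Pool.Agent.Helper37HC.Done

/-!
# Hilbert cubes: the information about one index in a product
-/

set_option autoImplicit false

namespace Pool.Agent.Helper37EX

open Finset Pool.Agent.Helper37HC Pool.Agent.Y359.PE

lemma fa_mul {x y : ℤ} (hx : x ≠ 0) (hy : y ≠ 0) (p : ℕ) : fa (x * y) p = fa x p + fa y p := by
  unfold fa
  rw [Int.natAbs_mul, Nat.factorization_mul (Int.natAbs_ne_zero.2 hx) (Int.natAbs_ne_zero.2 hy)]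
  rfl

/-- number of the sets of a pair which contain `i` -/
noncomputable def wt {k : ℕ} (i : Fin k) (s : Finset (Fin k) × Finset (Fin k)) : ℕ := by
  classical exact (if i ∈ s.1 then 1 else 0) + (if i ∈ s.2 then 1 else 0)

/-- the index can be recovered from the products up to a small set of pairs -/
def Rec {k : ℕ} (a₀ : ℤ) (u : Fin k → ℤ) (δ : ℝ) (i : Fin k) : Prop :=
  (∀ S R : Finset (Fin k), val a₀ u S = val a₀ u R → (i ∈ S ↔ i ∈ R)) ∧
  ∃ (Amb : Finset (Finset (Fin k) × Finset (Fin k))) (dec : ℤ → Prop → ℕ),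
    (∀ s : Finset (Fin k) × Finset (Fin k), val a₀ u s.1 ≠ 0 → val a₀ u s.2 ≠ 0 →
      dec (val a₀ u s.1 * val a₀ u s.2) (s ∈ Amb) = wt i s) ∧
    (Amb.card : ℝ) ≤ δ * 4 ^ k

lemma mem_iff {k : ℕ} {a₀ : ℤ} {u : Fin k → ℤ} {i : Fin k} {n : ℤ}
    (h : ∀ j, j ≠ i → n ∣ u j) (hi : ¬ n ∣ u i) (S R : Finset (Fin k))
    (hSR : val a₀ u S = val a₀ u R) : i ∈ S ↔ i ∈ R := by
  have h1 := val_sub a₀ u i S h
  have h2 := val_sub a₀ u i R h
  rw [hSR] at h1
  have h3 := dvd_sub h2 h1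
  by_cases hS : i ∈ S <;> by_cases hR : i ∈ R
  · exact iff_of_true hS hR
  · exfalso
    rw [if_pos hS, if_neg hR] at h3
    apply hi
    have : val a₀ u R - (a₀ + 0) - (val a₀ u R - (a₀ + u i)) = u i := by ring
    rwa [this] at h3
  · exfalso
    rw [if_neg hS, if_pos hR] at h3
    apply hi
    have : val a₀ u R - (a₀ + u i) - (val a₀ u R - (a₀ + 0)) = -u i := by ring
    rw [this] at h3
    exact (dvd_neg).1 h3
  · exact iff_of_false hS hR

/-- different valuations, none of them high -/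
lemma rec_beta {k : ℕ} {a₀ : ℤ} {u : Fin k → ℤ} {δ : ℝ} (hδ : 0 ≤ δ) {i : Fin k} {p e : ℕ}
    (hp : p.Prime) (h : ∀ j, j ≠ i → ((p ^ e : ℕ) : ℤ) ∣ u j) (hi : ¬ ((p ^ e : ℕ) : ℤ) ∣ u i)
    (h0 : ¬ ((p ^ e : ℕ) : ℤ) ∣ a₀) (h1 : ¬ ((p ^ e : ℕ) : ℤ) ∣ a₀ + u i)
    (hne : fa a₀ p ≠ fa (a₀ + u i) p) : Rec a₀ u δ i := by
  classical
  refine ⟨mem_iff h hi, ∅, fun n _ => if fa n p = 2 * fa a₀ p then 0 else
    if fa n p = 2 * fa (a₀ + u i) p then 2 else 1, ?_, by simp; positivity⟩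
  have key : ∀ S : Finset (Fin k), fa (val a₀ u S) p =
      if i ∈ S then fa (a₀ + u i) p else fa a₀ p := by
    intro S
    have h2 := val_sub a₀ u i S h
    by_cases hS : i ∈ S
    · rw [if_pos hS] at h2 ⊢
      refine fa_eq_of_congr hp h2 (fun h3 => h1 ?_) h1
      have := dvd_sub h3 h2
      simpa using this
    · rw [if_neg hS, add_zero] at h2
      rw [if_neg hS]
      refine fa_eq_of_congr hp h2 (fun h3 => h0 ?_) h0
      have := dvd_sub h3 h2
      simpa using this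
  intro s hs1 hs2
  dsimp only
  rw [fa_mul hs1 hs2, key, key]
  unfold wt
  by_cases ha : i ∈ s.1 <;> by_cases hb : i ∈ s.2 <;> simp only [ha, hb, if_true, if_false]
  · rw [if_neg (by omega), if_pos (by omega)]
  · rw [if_neg (by omega), if_neg (by omega)]
  · rw [if_neg (by omega), if_neg (by omega)]
  · rw [if_pos (by omega)]

/-- one high valuation -/
lemma rec_alpha {k : ℕ} {a₀ : ℤ} {u : Fin k → ℤ} {δ : ℝ} {i : Fin k} {p e v : ℕ} {good : Prop}
    (hp : p.Prime) (h : ∀ j, j ≠ i → ((p ^ e : ℕ) : ℤ) ∣ u j) (hi : ¬ ((p ^ e : ℕ) : ℤ) ∣ u i)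
    (hgood : ∀ S : Finset (Fin k), (i ∈ S ↔ good) →
      ((p ^ e : ℕ) : ℤ) ∣ a₀ + if i ∈ S then u i else 0)
    (hbad : ∀ S : Finset (Fin k), ¬ (i ∈ S ↔ good) →
      ¬ ((p ^ e : ℕ) : ℤ) ∣ (a₀ + if i ∈ S then u i else 0) ∧
      fa (a₀ + if i ∈ S then u i else 0) p = v)
    (hve : v < e)
    (hnoise : ∀ D : Finset (Finset (Fin k)), (∀ S ∈ D, (i ∈ S ↔ good) ∧
      ((p ^ (e + (e - v)) : ℕ) : ℤ) ∣ val a₀ u S) → (D.card : ℝ) ≤ δ / 2 * 2 ^ k) :
    Rec a₀ u δ i := by
  classical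
  have kg : ∀ S : Finset (Fin k), val a₀ u S ≠ 0 → (i ∈ S ↔ good) → e ≤ fa (val a₀ u S) p := by
    intro S hS0 hS
    rw [← fa_dvd hp hS0]
    have h2 := val_sub a₀ u i S h
    have := dvd_add h2 (hgood S hS)
    simpa using this
  have kb : ∀ S : Finset (Fin k), ¬ (i ∈ S ↔ good) → fa (val a₀ u S) p = v := by
    intro S hS
    have h2 := val_sub a₀ u i S h
    obtain ⟨h3, h4⟩ := hbad S hS
    rw [← h4]
    refine fa_eq_of_congr hp h2 (fun h5 => h3 ?_) h3
    have := dvd_sub h5 h2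
    simpa using this
  obtain ⟨D, hD⟩ : ∃ D : Finset (Finset (Fin k)), D = univ.filter fun S => (i ∈ S ↔ good) ∧
      ((p ^ (e + (e - v)) : ℕ) : ℤ) ∣ val a₀ u S := ⟨_, rfl⟩
  have hDc := hnoise D fun S hS => by
    rw [hD, mem_filter] at hS
    exact hS.2
  obtain ⟨Amb, hAmb⟩ : ∃ Amb : Finset (Finset (Fin k) × Finset (Fin k)),
      Amb = univ.filter fun s => val a₀ u s.1 ≠ 0 ∧ val a₀ u s.2 ≠ 0 ∧
        ¬ ((i ∈ s.1 ↔ good) ↔ (i ∈ s.2 ↔ good)) ∧
        2 * e ≤ fa (val a₀ u s.1 * val a₀ u s.2) p := ⟨_, rfl⟩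
  refine ⟨mem_iff h hi, Amb, fun n t => if t then 1 else if 2 * e ≤ fa n p then
    (if good then 2 else 0) else if fa n p = 2 * v then (if good then 0 else 2) else 1, ?_, ?_⟩
  · intro s hs1 hs2
    dsimp only
    rw [fa_mul hs1 hs2]
    have hiff : s ∈ Amb ↔ ¬ ((i ∈ s.1 ↔ good) ↔ (i ∈ s.2 ↔ good)) ∧
        2 * e ≤ fa (val a₀ u s.1) p + fa (val a₀ u s.2) p := by
      rw [hAmb, mem_filter, fa_mul hs1 hs2]
      simp [hs1, hs2]
    by_cases g1 : (i ∈ s.1 ↔ good) <;> by_cases g2 : (i ∈ s.2 ↔ good)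
    · have h3 : s ∉ Amb := fun h => (hiff.1 h).1 (iff_of_true g1 g2)
      have h4 := kg s.1 hs1 g1
      have h5 := kg s.2 hs2 g2
      rw [if_neg h3, if_pos (by omega)]
      unfold wt
      by_cases hg : good
      · rw [if_pos hg, if_pos (g1.2 hg), if_pos (g2.2 hg)]
      · rw [if_neg hg, if_neg fun h => hg (g1.1 h), if_neg fun h => hg (g2.1 h)]
    · have h4 := kg s.1 hs1 g1
      have h5 := kb s.2 g2
      have hw : wt i s = 1 := by
        unfold wt
        by_cases hg : good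
        · have h6 : i ∉ s.2 := fun h => g2 (iff_of_true h hg)
          rw [if_pos (g1.2 hg), if_neg h6]
        · have h6 : i ∈ s.2 := by
            by_contra h
            exact g2 (iff_of_false h hg)
          rw [if_neg fun h => hg (g1.1 h), if_pos h6]
      by_cases h6 : 2 * e ≤ fa (val a₀ u s.1) p + fa (val a₀ u s.2) p
      · rw [if_pos (hiff.2 ⟨fun h => g2 (h.1 g1), h6⟩), hw]
      · rw [if_neg fun h => h6 (hiff.1 h).2, if_neg h6, if_neg (by omega), hw]
    · have h4 := kb s.1 g1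
      have h5 := kg s.2 hs2 g2
      have hw : wt i s = 1 := by
        unfold wt
        by_cases hg : good
        · have h6 : i ∉ s.1 := fun h => g1 (iff_of_true h hg)
          rw [if_pos (g2.2 hg), if_neg h6]
        · have h6 : i ∈ s.1 := by
            by_contra h
            exact g1 (iff_of_false h hg)
          rw [if_neg fun h => hg (g2.1 h), if_pos h6]
      by_cases h6 : 2 * e ≤ fa (val a₀ u s.1) p + fa (val a₀ u s.2) p
      · rw [if_pos (hiff.2 ⟨fun h => g1 (h.2 g2), h6⟩), hw]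
      · rw [if_neg fun h => h6 (hiff.1 h).2, if_neg h6, if_neg (by omega), hw]
    · have h4 := kb s.1 g1
      have h5 := kb s.2 g2
      have h3 : s ∉ Amb := fun h => by
        have := (hiff.1 h).2
        omega
      rw [if_neg h3, if_neg (by omega), if_pos (by omega)]
      unfold wt
      by_cases hg : good
      · have h6 : i ∉ s.1 := fun h => g1 (iff_of_true h hg)
        have h7 : i ∉ s.2 := fun h => g2 (iff_of_true h hg)
        rw [if_pos hg, if_neg h6, if_neg h7]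
      · have h6 : i ∈ s.1 := by
          by_contra h
          exact g1 (iff_of_false h hg)
        have h7 : i ∈ s.2 := by
          by_contra h
          exact g2 (iff_of_false h hg)
        rw [if_neg hg, if_pos h6, if_pos h7]
  · have hsub : Amb ⊆ D ×ˢ univ ∪ univ ×ˢ D := by
      intro s hs
      rw [hAmb, mem_filter] at hs
      obtain ⟨-, hs1, hs2, hx, h6⟩ := hs
      rw [fa_mul hs1 hs2] at h6
      rw [mem_union, mem_product, mem_product, hD, mem_filter, mem_filter]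
      by_cases g1 : (i ∈ s.1 ↔ good)
      · left
        have g2 : ¬ (i ∈ s.2 ↔ good) := fun g2 => hx (iff_of_true g1 g2)
        have h5 := kb s.2 g2
        refine ⟨⟨mem_univ _, g1, ?_⟩, mem_univ _⟩
        rw [fa_dvd hp hs1]
        omega
      · right
        have g2 : (i ∈ s.2 ↔ good) := by
          by_contra g2
          exact hx (iff_of_false g1 g2)
        have h5 := kb s.1 g1
        refine ⟨mem_univ _, mem_univ _, g2, ?_⟩
        rw [fa_dvd hp hs2]
        omega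
    have h1 : Amb.card ≤ D.card * 2 ^ k + 2 ^ k * D.card := by
      refine (card_le_card hsub).trans ((card_union_le _ _).trans (le_of_eq ?_))
      rw [card_product, card_product, card_univ, Fintype.card_finset, Fintype.card_fin]
    have h2 : (Amb.card : ℝ) ≤ D.card * 2 ^ k + 2 ^ k * D.card := by exact_mod_cast h1
    have h3 : (4 : ℝ) ^ k = 2 ^ k * 2 ^ k := by rw [← mul_pow]; norm_num
    rw [h3]
    calc (Amb.card : ℝ) ≤ 2 * (2 ^ k * D.card) := by linarith
      _ ≤ 2 * (2 ^ k * (δ / 2 * 2 ^ k)) := by gcongr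
      _ = δ * (2 ^ k * 2 ^ k) := by ring

end Pool.Agent.Helper37EX
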