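import Mathlib
import Pool.Agent.Helper37EX.Dec

/-!
# Hilbert cubes: counting pairs with a given product
-/

set_option autoImplicit false

namespace Pool.Agent.Helper37EX

open Finset Pool.Agent.Helper37HC Pool.Agent.Y359.PE

lemma few_sets (k : ℕ) (τ lam : ℝ) (h0 : 0 < lam) (h1 : lam ≤ 1) :
    ((univ.filter fun T : Finset (Fin k) => (T.card : ℝ) ≤ τ * k).card : ℝ) ≤
      Real.exp (k * (lam + τ * Real.log (1 / lam))) := by
  classical
  have e1 : ∑ T ∈ (univ : Finset (Fin k)).powerset, lam ^ T.card = (1 + lam) ^ k := by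
    have := Finset.sum_pow_mul_eq_add_pow lam 1 (univ : Finset (Fin k))
    simp only [one_pow, mul_one, card_univ, Fintype.card_fin] at this
    rw [this, add_comm]
  have e2 : (1 + lam) ^ k ≤ Real.exp (k * lam) := by
    rw [Real.exp_nat_mul]
    refine pow_le_pow_left₀ (by linarith) ?_ k
    linarith [Real.add_one_le_exp lam]
  have e3 : ((univ.filter fun T : Finset (Fin k) => (T.card : ℝ) ≤ τ * k).card : ℝ) *
      Real.exp (-(k * (τ * Real.log (1 / lam)))) ≤
        ∑ T ∈ (univ : Finset (Fin k)).powerset, lam ^ T.card := by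
    rw [← nsmul_eq_mul]
    refine (Finset.card_nsmul_le_sum _ (fun T => lam ^ T.card) _ fun T hT => ?_).trans
      (Finset.sum_le_sum_of_subset_of_nonneg (fun T _ => by simp) fun T _ _ => by positivity)
    rw [mem_filter] at hT
    rw [← Real.rpow_natCast, Real.rpow_def_of_pos h0]
    apply Real.exp_le_exp.2
    have h3 : 0 ≤ Real.log (1 / lam) := Real.log_nonneg (by rw [le_div_iff₀ h0]; linarith)
    have h4 : Real.log lam = - Real.log (1 / lam) := by rw [one_div, Real.log_inv]; ring
    rw [h4]
    have := mul_le_mul_of_nonneg_left hT.2 h3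
    linarith
  rw [e1] at e3
  have e4 := e3.trans e2
  have e5 : Real.exp (k * (lam + τ * Real.log (1 / lam))) =
      Real.exp (k * lam) / Real.exp (-(k * (τ * Real.log (1 / lam)))) := by
    rw [← Real.exp_sub]
    congr 1
    ring
  rw [e5, le_div_iff₀ (Real.exp_pos _)]
  exact e4

/-- the pairs are determined by the product and few additional data -/
theorem count {k : ℕ} (a₀ : ℤ) (u : Fin k → ℤ) (δ τ F : ℝ) (hδ : 0 ≤ δ) (hτ : 0 ≤ τ)
    (N : Finset (Fin k))
    (hF : ((univ.filter fun T : Finset (Fin k) => (T.card : ℝ) ≤ τ * k).card : ℝ) ≤ F)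
    (hN : ∀ i, i ∉ N → Rec a₀ u δ i) (P : Finset (Finset (Fin k) × Finset (Fin k))) :
    (P.card : ℝ) * (τ * k) ≤ k * δ * 4 ^ k + 2 * (2 ^ N.card * 2 ^ k) * (τ * k) +
      ((P.image fun s => val a₀ u s.1 * val a₀ u s.2).card : ℝ) * F * 4 ^ N.card * 2 * (τ * k) := by
  classical
  have hN' : ∀ i, ∃ (Amb : Finset (Finset (Fin k) × Finset (Fin k))) (dec : ℤ → Prop → ℕ),
      i ∉ N → (∀ s : Finset (Fin k) × Finset (Fin k), val a₀ u s.1 ≠ 0 → val a₀ u s.2 ≠ 0 →
        dec (val a₀ u s.1 * val a₀ u s.2) (s ∈ Amb) = wt i s) ∧ (Amb.card : ℝ) ≤ δ * 4 ^ k := by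
    intro i
    by_cases hi : i ∈ N
    · exact ⟨∅, fun _ _ => 0, fun h => absurd hi h⟩
    · obtain ⟨-, Amb, dec, h1, h2⟩ := hN i hi
      exact ⟨Amb, dec, fun _ => ⟨h1, h2⟩⟩
  choose Amb dec hdec using hN'
  -- determined by the values
  have hval : ∀ S R : Finset (Fin k), val a₀ u S = val a₀ u R → S ∩ N = R ∩ N → S = R := by
    intro S R h1 h2
    ext i
    by_cases hi : i ∈ N
    · have := Finset.ext_iff.1 h2 i
      simpa [hi] using this
    · exact (hN i hi).1 S R h1
  -- the pairs of value zero
  have hz : (univ.filter fun S : Finset (Fin k) => val a₀ u S = 0).card ≤ 2 ^ N.card := by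
    have h1 : (univ.filter fun S : Finset (Fin k) => val a₀ u S = 0).card ≤ N.powerset.card := by
      refine card_le_card_of_injOn (fun S => S ∩ N) ?_ ?_
      · intro S _
        exact mem_powerset.2 inter_subset_right
      · intro S hS R hR hSR
        rw [mem_coe, mem_filter] at hS hR
        exact hval S R (hS.2.trans hR.2.symm) hSR
    rwa [card_powerset] at h1
  obtain ⟨T, hT⟩ : ∃ T : Finset (Fin k) × Finset (Fin k) → Finset (Fin k),
      T = fun s => univ.filter fun i => i ∉ N ∧ s ∈ Amb i := ⟨_, rfl⟩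
  obtain ⟨Q, hQ⟩ : ∃ Q : Finset (Finset (Fin k) × Finset (Fin k)),
      Q = P.filter fun s => val a₀ u s.1 ≠ 0 ∧ val a₀ u s.2 ≠ 0 ∧ ((T s).card : ℝ) ≤ τ * k :=
    ⟨_, rfl⟩
  -- the exceptional pairs
  have hex : (P.card : ℝ) ≤ Q.card + 2 * (2 ^ N.card * 2 ^ k) +
      ((univ.filter fun s : Finset (Fin k) × Finset (Fin k) =>
        τ * k < ((T s).card : ℝ)).card : ℝ) := by
    have h1 : P ⊆ Q ∪ ((univ.filter fun S : Finset (Fin k) => val a₀ u S = 0) ×ˢ univ ∪
        univ ×ˢ (univ.filter fun S : Finset (Fin k) => val a₀ u S = 0)) ∪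
        univ.filter fun s : Finset (Fin k) × Finset (Fin k) => τ * k < ((T s).card : ℝ) := by
      intro s hs
      rw [mem_union, mem_union, mem_union, mem_product, mem_product, hQ]
      simp only [mem_filter, mem_univ, true_and, and_true]
      by_cases h2 : val a₀ u s.1 = 0
      · exact Or.inl (Or.inr (Or.inl h2))
      by_cases h3 : val a₀ u s.2 = 0
      · exact Or.inl (Or.inr (Or.inr h3))
      rcases le_or_gt ((T s).card : ℝ) (τ * k) with h4 | h4
      · exact Or.inl (Or.inl ⟨hs, h2, h3, h4⟩)
      · exact Or.inr h4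
    have h2 := (card_le_card h1).trans ((card_union_le _ _).trans (Nat.add_le_add_right
      ((card_union_le _ _).trans (Nat.add_le_add_left (card_union_le _ _) _)) _))
    rw [card_product, card_product, card_univ, Fintype.card_finset, Fintype.card_fin] at h2
    have h3 : P.card ≤ Q.card + (2 ^ N.card * 2 ^ k + 2 ^ k * 2 ^ N.card) +
        (univ.filter fun s : Finset (Fin k) × Finset (Fin k) => τ * k < ((T s).card : ℝ)).card := by
      refine h2.trans ?_
      gcongr
    have h4 : (P.card : ℝ) ≤ Q.card + (2 ^ N.card * 2 ^ k + 2 ^ k * 2 ^ N.card) +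
        ((univ.filter fun s : Finset (Fin k) × Finset (Fin k) =>
          τ * k < ((T s).card : ℝ)).card : ℝ) := by exact_mod_cast h3
    linarith
  -- many ambiguous indices are rare
  have hmk : ((univ.filter fun s : Finset (Fin k) × Finset (Fin k) =>
      τ * k < ((T s).card : ℝ)).card : ℝ) * (τ * k) ≤ k * δ * 4 ^ k := by
    have h1 : ((univ.filter fun s : Finset (Fin k) × Finset (Fin k) =>
        τ * k < ((T s).card : ℝ)).card : ℝ) * (τ * k) ≤ ∑ s, ((T s).card : ℝ) := by
      rw [← nsmul_eq_mul]
      refine (Finset.card_nsmul_le_sum _ (fun s => ((T s).card : ℝ)) _ fun s hs => ?_).trans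
        (Finset.sum_le_sum_of_subset_of_nonneg (subset_univ _) fun s _ _ => Nat.cast_nonneg _)
      exact (mem_filter.1 hs).2.le
    have h2 : ∑ s, ((T s).card : ℝ) = ∑ i ∈ univ \ N, ((Amb i).card : ℝ) := by
      rw [hT]
      simp only [Finset.card_filter]
      push_cast
      rw [Finset.sum_comm, ← Finset.sum_sdiff (subset_univ N)]
      have h3 : ∑ i ∈ N, ∑ s : Finset (Fin k) × Finset (Fin k),
          (if i ∉ N ∧ s ∈ Amb i then (1 : ℝ) else 0) = 0 := by
        refine Finset.sum_eq_zero fun i hi => Finset.sum_eq_zero fun s _ => ?_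
        rw [if_neg fun h => h.1 hi]
      rw [h3, add_zero]
      refine Finset.sum_congr rfl fun i hi => ?_
      have hiN := (mem_sdiff.1 hi).2
      rw [Finset.cast_card, ← Finset.sum_filter]
      · have : (univ.filter fun s => i ∉ N ∧ s ∈ Amb i) = Amb i := by
          ext s
          simp [hiN]
        rw [this]
    rw [h2] at h1
    have h3 : ∑ i ∈ univ \ N, ((Amb i).card : ℝ) ≤ ∑ i ∈ univ \ N, δ * 4 ^ k :=
      Finset.sum_le_sum fun i hi => (hdec i (mem_sdiff.1 hi).2).2
    rw [Finset.sum_const, nsmul_eq_mul] at h3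
    refine h1.trans (h3.trans ?_)
    have h7 : ((univ \ N).card : ℝ) ≤ k := by
      have := card_le_univ (univ \ N)
      rw [Fintype.card_fin] at this
      exact_mod_cast this
    calc ((univ \ N).card : ℝ) * (δ * 4 ^ k) ≤ k * (δ * 4 ^ k) :=
          mul_le_mul_of_nonneg_right h7 (by positivity)
      _ = k * δ * 4 ^ k := by ring
  -- the other pairs
  have hQc : (Q.card : ℝ) ≤ ((P.image fun s => val a₀ u s.1 * val a₀ u s.2).card : ℝ) * F *
      4 ^ N.card * 2 := by
    have h1 : Q.card ≤ ((P.image fun s => val a₀ u s.1 * val a₀ u s.2) ×ˢ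
        (univ.filter fun T : Finset (Fin k) => (T.card : ℝ) ≤ τ * k) ×ˢ N.powerset ×ˢ
        N.powerset ×ˢ (univ : Finset Bool)).card := by
      refine card_le_card_of_injOn (fun s => (val a₀ u s.1 * val a₀ u s.2, T s, s.1 ∩ N, s.2 ∩ N,
        decide (val a₀ u s.1 ≤ val a₀ u s.2))) ?_ ?_
      · intro s hs
        rw [mem_coe, hQ, mem_filter] at hs
        rw [mem_coe, mem_product, mem_product, mem_product, mem_product]
        refine ⟨mem_image_of_mem _ hs.1, mem_filter.2 ⟨mem_univ _, hs.2.2.2⟩,
          mem_powerset.2 inter_subset_right, mem_powerset.2 inter_subset_right, mem_univ _⟩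
      · intro s hs t ht hst
        rw [mem_coe, hQ, mem_filter] at hs ht
        obtain ⟨-, hs1, hs2, -⟩ := hs
        obtain ⟨-, ht1, ht2, -⟩ := ht
        rw [Prod.mk.injEq, Prod.mk.injEq, Prod.mk.injEq, Prod.mk.injEq] at hst
        obtain ⟨e1, e2, e3, e4, e5⟩ := hst
        have hw : ∀ i, wt i s = wt i t := by
          intro i
          by_cases hi : i ∈ N
          · have f1 := Finset.ext_iff.1 e3 i
            have f2 := Finset.ext_iff.1 e4 i
            simp only [mem_inter, hi, and_true] at f1 f2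
            unfold wt
            simp only [f1, f2]
          · rw [← (hdec i hi).1 s hs1 hs2, ← (hdec i hi).1 t ht1 ht2, e1]
            have f1 := Finset.ext_iff.1 e2 i
            rw [hT] at f1
            simp only [mem_filter, mem_univ, true_and, hi, not_false_eq_true] at f1
            rw [f1]
        have hsum : ∀ r : Finset (Fin k) × Finset (Fin k),
            val a₀ u r.1 + val a₀ u r.2 = 2 * a₀ + ∑ i, (wt i r : ℤ) * u i := by
          intro r
          unfold val wt
          have g1 : ∀ S : Finset (Fin k), ∑ i ∈ S, u i = ∑ i, (if i ∈ S then (1 : ℤ) else 0) * u i := by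
            intro S
            simp only [ite_mul, one_mul, zero_mul]
            rw [Finset.sum_ite_mem, univ_inter]
          rw [g1, g1]
          have g2 : ∑ i, (((if i ∈ r.1 then 1 else 0) + (if i ∈ r.2 then 1 else 0) : ℕ) : ℤ) * u i =
              ∑ i, (if i ∈ r.1 then (1 : ℤ) else 0) * u i +
              ∑ i, (if i ∈ r.2 then (1 : ℤ) else 0) * u i := by
            rw [← Finset.sum_add_distrib]
            refine Finset.sum_congr rfl fun i _ => ?_
            push_cast
            ring
          rw [g2]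
          ring
        have hs3 : val a₀ u s.1 + val a₀ u s.2 = val a₀ u t.1 + val a₀ u t.2 := by
          rw [hsum, hsum]
          simp only [hw]
        have hfac : (val a₀ u s.1 - val a₀ u t.1) * (val a₀ u s.1 - val a₀ u t.2) = 0 := by
          have : (val a₀ u s.1 - val a₀ u t.1) * (val a₀ u s.1 - val a₀ u t.2) =
              val a₀ u s.1 ^ 2 - val a₀ u s.1 * (val a₀ u t.1 + val a₀ u t.2) +
                val a₀ u t.1 * val a₀ u t.2 := by ring
          rw [this, ← hs3, ← e1]
          ring
        have hfin : val a₀ u s.1 = val a₀ u t.1 ∧ val a₀ u s.2 = val a₀ u t.2 := by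
          rcases mul_eq_zero.1 hfac with h3 | h3
          · have h4 : val a₀ u s.1 = val a₀ u t.1 := by linarith
            exact ⟨h4, by linarith⟩
          · have h4 : val a₀ u s.1 = val a₀ u t.2 := by linarith
            have h5 : val a₀ u s.2 = val a₀ u t.1 := by linarith
            rw [decide_eq_decide, h4, h5] at e5
            have h6 : val a₀ u t.1 = val a₀ u t.2 := by
              rcases le_total (val a₀ u t.1) (val a₀ u t.2) with h7 | h7
              · exact le_antisymm h7 (e5.2 h7)
              · exact le_antisymm (e5.1 h7) h7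
            exact ⟨by rw [h4, h6], by rw [h5, h6]⟩
        exact Prod.ext (hval _ _ hfin.1 e3) (hval _ _ hfin.2 e4)
    rw [card_product, card_product, card_product, card_product, card_powerset, card_univ,
      Fintype.card_bool] at h1
    have h2 : (Q.card : ℝ) ≤ ((P.image fun s => val a₀ u s.1 * val a₀ u s.2).card : ℝ) *
        (((univ.filter fun T : Finset (Fin k) => (T.card : ℝ) ≤ τ * k).card : ℝ) *
          (2 ^ N.card * (2 ^ N.card * 2))) := by exact_mod_cast h1
    refine h2.trans ?_
    have h3 : (4 : ℝ) ^ N.card = 2 ^ N.card * 2 ^ N.card := by rw [← mul_pow]; norm_num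
    rw [h3]
    calc ((P.image fun s => val a₀ u s.1 * val a₀ u s.2).card : ℝ) *
        (((univ.filter fun T : Finset (Fin k) => (T.card : ℝ) ≤ τ * k).card : ℝ) *
          (2 ^ N.card * (2 ^ N.card * 2))) ≤
        ((P.image fun s => val a₀ u s.1 * val a₀ u s.2).card : ℝ) *
        (F * (2 ^ N.card * (2 ^ N.card * 2))) := by gcongr
      _ = _ := by ring
  have hτk : 0 ≤ τ * k := by positivity
  calc (P.card : ℝ) * (τ * k) ≤ (Q.card + 2 * (2 ^ N.card * 2 ^ k) +
      ((univ.filter fun s : Finset (Fin k) × Finset (Fin k) =>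
        τ * k < ((T s).card : ℝ)).card : ℝ)) * (τ * k) := mul_le_mul_of_nonneg_right hex hτk
    _ ≤ _ := by
      have := mul_le_mul_of_nonneg_right hQc hτk
      linarith

end Pool.Agent.Helper37EX
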