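import Mathlib
import Pool.Agent.Helper37EX.Count

/-!
# Products of elements of Hilbert cubes with private primes
-/

set_option autoImplicit false

namespace Pool.Agent.Helper37EX

open Finset Pool.Agent.Helper37HC Pool.Agent.Y359.PE

/-- There is a prime power `p ^ e` which divides all the `u j`, `j ≠ i`, but not `u i`, such that
either it divides `a₀` or `a₀ + u i`, and `p ^ (e + 1)` does not divide at least `M` of the `u j`,
`j ≠ i`; or it divides none of `a₀`, `a₀ + u i`, and these have different `p`-adic valuations. -/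
def Exposed {k : ℕ} (a₀ : ℤ) (u : Fin k → ℤ) (M : ℕ) (i : Fin k) : Prop :=
  ∃ p e : ℕ, p.Prime ∧ (∀ j, j ≠ i → (p : ℤ) ^ e ∣ u j) ∧ ¬ (p : ℤ) ^ e ∣ u i ∧
    ((((p : ℤ) ^ e ∣ a₀ ∨ (p : ℤ) ^ e ∣ a₀ + u i) ∧
        M ≤ Set.ncard {j : Fin k | j ≠ i ∧ ¬ (p : ℤ) ^ (e + 1) ∣ u j}) ∨
      (¬ (p : ℤ) ^ e ∣ a₀ ∧ ¬ (p : ℤ) ^ e ∣ a₀ + u i ∧
        padicValInt p a₀ ≠ padicValInt p (a₀ + u i)))

lemma fa_neg (x : ℤ) (p : ℕ) : fa (-x) p = fa x p := by
  unfold fa
  rw [Int.natAbs_neg]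

lemma fa_eq_padic {p : ℕ} (hp : p.Prime) (x : ℤ) : fa x p = padicValInt p x := by
  unfold padicValInt fa
  rw [Nat.factorization_def _ hp]

theorem rec_of (δ : ℝ) (hδ : 0 < δ) : ∃ m M : ℕ, 1 ≤ M ∧ ∀ (k : ℕ) (a₀ : ℤ) (u : Fin k → ℤ),
    (∀ j, u j ≠ 0) →
    Set.ncard {i : Fin k | Exposed a₀ u M i ∧ ¬ Rec a₀ u δ i} ≤ m := by
  classical
  obtain ⟨m, M, -, hM, hno⟩ := noise (δ / 2) (by linarith)
  refine ⟨m, M, hM, ?_⟩
  intro k a₀ u hu
  have key : ∀ i : Fin k, ∃ p : ℕ, (Exposed a₀ u M i ∧ ¬ Rec a₀ u δ i) → p < m ∧ ∃ e : ℕ,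
      (∀ j, j ≠ i → ((p ^ e : ℕ) : ℤ) ∣ u j) ∧ ¬ ((p ^ e : ℕ) : ℤ) ∣ u i := by
    intro i
    by_cases hi : Exposed a₀ u M i ∧ ¬ Rec a₀ u δ i
    swap
    · exact ⟨0, fun h => absurd h hi⟩
    obtain ⟨⟨p, e, hp, h1, h2, h3⟩, hnR⟩ := hi
    have h1' : ∀ j, j ≠ i → ((p ^ e : ℕ) : ℤ) ∣ u j := fun j hj => by
      push_cast; exact h1 j hj
    have h2' : ¬ ((p ^ e : ℕ) : ℤ) ∣ u i := by push_cast; exact h2
    refine ⟨p, fun _ => ⟨?_, e, h1', h2'⟩⟩
    rcases h3 with ⟨h3, h4⟩ | ⟨h3, h4, h5⟩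
    · have hv : fa (u i) p < e := by
        rw [fa_dvd hp (hu i), not_le] at h2'
        exact h2'
      by_contra hcon
      apply hnR
      have hc : M ≤ (univ.filter fun j => j ≠ i ∧ ¬ ((p ^ (e + 1) : ℕ) : ℤ) ∣ u j).card := by
        have e1 : {j : Fin k | j ≠ i ∧ ¬ (p : ℤ) ^ (e + 1) ∣ u j} =
            ((univ.filter fun j => j ≠ i ∧ ¬ ((p ^ (e + 1) : ℕ) : ℤ) ∣ u j : Finset (Fin k)) :
              Set (Fin k)) := by
          ext j
          simp
        rwa [e1, Set.ncard_coe_finset] at h4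
      have hg : ∀ S : Finset (Fin k), (i ∈ S ↔ ((p ^ e : ℕ) : ℤ) ∣ a₀ + u i) →
          ((p ^ e : ℕ) : ℤ) ∣ a₀ + if i ∈ S then u i else 0 := by
        intro S hS
        by_cases hiS : i ∈ S
        · rw [if_pos hiS]; exact hS.1 hiS
        · rw [if_neg hiS, add_zero]
          rcases h3 with h3 | h3
          · push_cast; exact h3
          · exact absurd (hS.2 (by push_cast; exact h3)) hiS
      have hmp : m ≤ p ^ (e - fa (u i) p) := by
        refine (not_lt.1 hcon).trans ?_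
        exact Nat.le_self_pow (by omega) p
      refine rec_alpha (v := fa (u i) p) (good := ((p ^ e : ℕ) : ℤ) ∣ a₀ + u i) hp h1' h2' hg ?_ hv
        fun D hD => ?_
      · intro S hS
        by_cases hiS : i ∈ S
        · have h5 : ¬ ((p ^ e : ℕ) : ℤ) ∣ a₀ + u i := fun h => hS (iff_of_true hiS h)
          rw [if_pos hiS]
          refine ⟨h5, fa_eq_of_congr hp ?_ h5 h2'⟩
          rw [add_sub_cancel_right]
          rcases h3 with h3 | h3
          · push_cast; exact h3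
          · exact absurd (by push_cast; exact h3) h5
        · have h5 : ((p ^ e : ℕ) : ℤ) ∣ a₀ + u i := by
            by_contra h
            exact hS (iff_of_false hiS h)
          have h6 : ¬ ((p ^ e : ℕ) : ℤ) ∣ a₀ := fun h => h2' (by simpa using dvd_sub h5 h)
          rw [if_neg hiS, add_zero]
          refine ⟨h6, ?_⟩
          rw [← fa_neg (u i) p]
          refine fa_eq_of_congr hp ?_ h6 (fun h => h2' ((dvd_neg).1 h))
          rw [sub_neg_eq_add]
          exact h5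
      · exact hno k a₀ u i p e (e - fa (u i) p) _ hp hu h1' hg hc hmp D hD
    · exfalso
      apply hnR
      refine rec_beta hδ.le hp h1' h2' (by push_cast; exact h3) (by push_cast; exact h4) ?_
      rw [fa_eq_padic hp, fa_eq_padic hp]
      exact h5
  choose p hp using key
  have h1 : {i : Fin k | Exposed a₀ u M i ∧ ¬ Rec a₀ u δ i} =
      ((univ.filter fun i => Exposed a₀ u M i ∧ ¬ Rec a₀ u δ i : Finset (Fin k)) :
        Set (Fin k)) := by
    ext j
    simp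
  rw [h1, Set.ncard_coe_finset]
  calc (univ.filter fun i => Exposed a₀ u M i ∧ ¬ Rec a₀ u δ i).card ≤ (range m).card := by
        refine card_le_card_of_injOn p ?_ ?_
        · intro i hi
          rw [mem_coe, mem_filter] at hi
          exact mem_coe.2 (mem_range.2 (hp i hi.2).1)
        · intro i hi j hj hij
          rw [mem_coe, mem_filter] at hi hj
          obtain ⟨-, e, h3, h4⟩ := hp i hi.2
          obtain ⟨-, f, h5, h6⟩ := hp j hj.2
          by_contra hne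
          rw [← hij] at h5 h6
          rcases le_total e f with hef | hef
          · apply h4
            exact (Int.natCast_dvd_natCast.2 (pow_dvd_pow _ hef)).trans (h5 i hne)
          · apply h6
            exact (Int.natCast_dvd_natCast.2 (pow_dvd_pow _ hef)).trans (h3 j (Ne.symm hne))
    _ = m := card_range m

theorem main (ε σ : ℝ) (hε : 0 < ε) (hε1 : ε ≤ 1) (hσ : 0 < σ) :
    ∃ (M : ℕ) (c : ℝ), 0 < c ∧ ∀ (k : ℕ) (a₀ : ℤ) (u : Fin k → ℤ), (∀ j, u j ≠ 0) →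
      (Set.ncard {i : Fin k | ¬ Exposed a₀ u M i} : ℝ) ≤ ε / 4 * k →
      ∀ P : Finset (Finset (Fin k) × Finset (Fin k)), σ * 4 ^ k ≤ P.card →
      c * (4 : ℝ) ^ ((1 - ε) * k) ≤ (P.image fun s => val a₀ u s.1 * val a₀ u s.2).card := by
  classical
  have hl : 0 < Real.log 4 := Real.log_pos (by norm_num)
  obtain ⟨lam, hlam⟩ : ∃ lam : ℝ, lam = min 1 (ε * Real.log 4 / 4) := ⟨_, rfl⟩
  have hlam0 : 0 < lam := by rw [hlam]; positivity
  have hlam1 : lam ≤ 1 := by rw [hlam]; exact min_le_left _ _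
  have hlam2 : lam ≤ ε * Real.log 4 / 4 := by rw [hlam]; exact min_le_right _ _
  have hll : 0 ≤ Real.log (1 / lam) := Real.log_nonneg (by rw [le_div_iff₀ hlam0]; linarith)
  obtain ⟨τ, hτ⟩ : ∃ τ : ℝ, τ = ε * Real.log 4 / 4 / (Real.log (1 / lam) + 1) := ⟨_, rfl⟩
  have hτ0 : 0 < τ := by rw [hτ]; positivity
  have hτ1 : τ * Real.log (1 / lam) ≤ ε * Real.log 4 / 4 := by
    rw [hτ, div_mul_eq_mul_div, div_le_iff₀ (by linarith)]
    have : 0 ≤ ε * Real.log 4 / 4 := by positivity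
    nlinarith
  obtain ⟨m, M, -, hrec⟩ := rec_of (σ * τ / 8) (by positivity)
  have h2l : 0 < Real.log 2 := Real.log_pos (by norm_num)
  obtain ⟨k₀, hk₀⟩ : ∃ k₀ : ℕ, k₀ = ⌈4 / 3 * (Real.log (2 ^ (m + 3) / σ) / Real.log 2)⌉₊ + 1 :=
    ⟨_, rfl⟩
  refine ⟨M, min ((4 : ℝ) ^ (-(k₀ : ℝ))) (σ / (4 * 4 ^ m)), by positivity, ?_⟩
  intro k a₀ u hu hN P hP
  have h4k : (0 : ℝ) < 4 ^ k := by positivity
  have hPpos : 0 < P.card := by
    have : (0 : ℝ) < P.card := lt_of_lt_of_le (by positivity) hP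
    exact_mod_cast this
  obtain ⟨I, hI⟩ : ∃ I : ℝ, I = ((P.image fun s => val a₀ u s.1 * val a₀ u s.2).card : ℝ) :=
    ⟨_, rfl⟩
  have hI1 : 1 ≤ I := by
    rw [hI]
    have : 0 < (P.image fun s => val a₀ u s.1 * val a₀ u s.2).card :=
      card_pos.2 ((card_pos.1 hPpos).image _)
    exact_mod_cast this
  rw [← hI]
  rcases lt_or_ge k k₀ with hk | hk
  · -- few indices
    refine le_trans ?_ hI1
    calc min ((4 : ℝ) ^ (-(k₀ : ℝ))) (σ / (4 * 4 ^ m)) * (4 : ℝ) ^ ((1 - ε) * k) ≤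
        (4 : ℝ) ^ (-(k₀ : ℝ)) * (4 : ℝ) ^ (k₀ : ℝ) := by
          refine mul_le_mul (min_le_left _ _) ?_ (by positivity) (by positivity)
          refine Real.rpow_le_rpow_of_exponent_le (by norm_num) ?_
          have h1 : (k : ℝ) ≤ k₀ := by exact_mod_cast hk.le
          have h2 : (0 : ℝ) ≤ k := Nat.cast_nonneg _
          nlinarith
      _ = 1 := by rw [← Real.rpow_add (by norm_num)]; simp
  · -- many indices
    have hk1 : 1 ≤ k := by omega
    have hkr : (1 : ℝ) ≤ k := by exact_mod_cast hk1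
    obtain ⟨N, hNd⟩ : ∃ N : Finset (Fin k), N = univ.filter fun i => ¬ Rec a₀ u (σ * τ / 8) i :=
      ⟨_, rfl⟩
    have hNc : (N.card : ℝ) ≤ ε / 4 * k + m := by
      have h1 : N ⊆ (univ.filter fun i => ¬ Exposed a₀ u M i) ∪
          univ.filter fun i => Exposed a₀ u M i ∧ ¬ Rec a₀ u (σ * τ / 8) i := by
        intro i hi
        rw [hNd, mem_filter] at hi
        rw [mem_union, mem_filter, mem_filter]
        by_cases h : Exposed a₀ u M i
        · exact Or.inr ⟨mem_univ _, h, hi.2⟩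
        · exact Or.inl ⟨mem_univ _, h⟩
      have h2 := (card_le_card h1).trans (card_union_le _ _)
      have h3 := hrec k a₀ u hu
      have e1 : {i : Fin k | Exposed a₀ u M i ∧ ¬ Rec a₀ u (σ * τ / 8) i} =
          ((univ.filter fun i => Exposed a₀ u M i ∧ ¬ Rec a₀ u (σ * τ / 8) i : Finset (Fin k)) :
            Set (Fin k)) := by ext j; simp
      have e2 : {i : Fin k | ¬ Exposed a₀ u M i} =
          ((univ.filter fun i => ¬ Exposed a₀ u M i : Finset (Fin k)) : Set (Fin k)) := by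
        ext j; simp
      rw [e1, Set.ncard_coe_finset] at h3
      rw [e2, Set.ncard_coe_finset] at hN
      have h4 : (N.card : ℝ) ≤ (univ.filter fun i => ¬ Exposed a₀ u M i).card + m := by
        exact_mod_cast h2.trans (Nat.add_le_add_left h3 _)
      linarith
    have hcnt := count a₀ u (σ * τ / 8) τ (Real.exp (k * (lam + τ * Real.log (1 / lam))))
      (by positivity) hτ0.le N (few_sets k τ lam hlam0 hlam1) (fun i hi => by
        by_contra h
        exact hi (by rw [hNd]; exact mem_filter.2 ⟨mem_univ _, h⟩)) P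
    rw [← hI] at hcnt
    have hτk : 0 < τ * k := by positivity
    have hcnt2 : (P.card : ℝ) ≤ σ / 8 * 4 ^ k + 2 * (2 ^ N.card * 2 ^ k) +
        I * Real.exp (k * (lam + τ * Real.log (1 / lam))) * 4 ^ N.card * 2 := by
      have h1 : (P.card : ℝ) * (τ * k) ≤ (σ / 8 * 4 ^ k + 2 * (2 ^ N.card * 2 ^ k) +
        I * Real.exp (k * (lam + τ * Real.log (1 / lam))) * 4 ^ N.card * 2) * (τ * k) := by
        refine hcnt.trans (le_of_eq ?_)
        ring
      exact le_of_mul_le_mul_right h1 hτk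
    -- the factors
    have hexp : Real.exp (k * (lam + τ * Real.log (1 / lam))) ≤ (4 : ℝ) ^ (ε / 2 * k) := by
      rw [Real.rpow_def_of_pos (by norm_num)]
      apply Real.exp_le_exp.2
      have h1 : lam + τ * Real.log (1 / lam) ≤ ε / 2 * Real.log 4 := by linarith
      calc (k : ℝ) * (lam + τ * Real.log (1 / lam)) ≤ k * (ε / 2 * Real.log 4) :=
            mul_le_mul_of_nonneg_left h1 (by linarith)
        _ = Real.log 4 * (ε / 2 * k) := by ring
    have h4N : (4 : ℝ) ^ N.card ≤ 4 ^ m * (4 : ℝ) ^ (ε / 4 * k) := by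
      rw [← Real.rpow_natCast (4 : ℝ) N.card, ← Real.rpow_natCast (4 : ℝ) m,
        ← Real.rpow_add (by norm_num)]
      exact Real.rpow_le_rpow_of_exponent_le (by norm_num) (by linarith)
    have h2N : (2 : ℝ) ^ N.card ≤ 2 ^ m * (2 : ℝ) ^ (1 / 4 * (k : ℝ)) := by
      rw [← Real.rpow_natCast (2 : ℝ) N.card, ← Real.rpow_natCast (2 : ℝ) m,
        ← Real.rpow_add (by norm_num)]
      refine Real.rpow_le_rpow_of_exponent_le (by norm_num) ?_
      nlinarith
    have hzero : 2 * ((2 : ℝ) ^ N.card * 2 ^ k) ≤ σ / 4 * 4 ^ k := by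
      have h1 : (2 : ℝ) ^ (m + 3) / σ ≤ (2 : ℝ) ^ (3 / 4 * (k : ℝ)) := by
        rw [Real.rpow_def_of_pos (by norm_num)]
        have h3 : Real.log (2 ^ (m + 3) / σ) ≤ Real.log 2 * (3 / 4 * (k : ℝ)) := by
          have h4 : 4 / 3 * (Real.log (2 ^ (m + 3) / σ) / Real.log 2) ≤ k := by
            have h5 := Nat.le_ceil (4 / 3 * (Real.log (2 ^ (m + 3) / σ) / Real.log 2))
            have h6 : (k₀ : ℝ) ≤ k := by exact_mod_cast hk
            rw [hk₀] at h6
            push_cast at h6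
            linarith
          have h7 : Real.log (2 ^ (m + 3) / σ) / Real.log 2 ≤ 3 / 4 * k := by linarith
          rw [div_le_iff₀ h2l] at h7
          linarith
        calc (2 : ℝ) ^ (m + 3) / σ = Real.exp (Real.log (2 ^ (m + 3) / σ)) := by
              rw [Real.exp_log (by positivity)]
          _ ≤ _ := Real.exp_le_exp.2 h3
      rw [div_le_iff₀ hσ] at h1
      have h8 : (4 : ℝ) ^ k = 2 ^ k * ((2 : ℝ) ^ (1 / 4 * (k : ℝ)) * (2 : ℝ) ^ (3 / 4 * (k : ℝ))) := by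
        rw [← Real.rpow_add (by norm_num)]
        have : 1 / 4 * (k : ℝ) + 3 / 4 * (k : ℝ) = k := by ring
        rw [this, Real.rpow_natCast, ← mul_pow]
        norm_num
      have h9 : (2 : ℝ) ^ (m + 3) = 8 * 2 ^ m := by rw [pow_add]; norm_num; ring
      rw [h9] at h1
      calc 2 * ((2 : ℝ) ^ N.card * 2 ^ k) ≤ 2 * ((2 ^ m * (2 : ℝ) ^ (1 / 4 * (k : ℝ))) * 2 ^ k) := by
            gcongr
        _ = (2 : ℝ) ^ (1 / 4 * (k : ℝ)) * 2 ^ k / 4 * (8 * 2 ^ m) := by ring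
        _ ≤ (2 : ℝ) ^ (1 / 4 * (k : ℝ)) * 2 ^ k / 4 * ((2 : ℝ) ^ (3 / 4 * (k : ℝ)) * σ) := by
            gcongr
        _ = σ / 4 * (2 ^ k * ((2 : ℝ) ^ (1 / 4 * (k : ℝ)) * (2 : ℝ) ^ (3 / 4 * (k : ℝ)))) := by ring
        _ = σ / 4 * 4 ^ k := by rw [h8]
    have hmain : σ / 2 * 4 ^ k ≤ I * ((4 : ℝ) ^ (ε / 2 * k) * (4 ^ m * (4 : ℝ) ^ (ε / 4 * k)) * 2) := by
      have h1 : I * Real.exp (k * (lam + τ * Real.log (1 / lam))) * 4 ^ N.card * 2 ≤
          I * ((4 : ℝ) ^ (ε / 2 * k) * (4 ^ m * (4 : ℝ) ^ (ε / 4 * k)) * 2) := by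
        have : I * Real.exp (k * (lam + τ * Real.log (1 / lam))) * 4 ^ N.card * 2 =
            I * (Real.exp (k * (lam + τ * Real.log (1 / lam))) * 4 ^ N.card * 2) := by ring
        rw [this]
        gcongr
      nlinarith
    have hfin : (4 : ℝ) ^ ((1 - ε) * k) * ((4 : ℝ) ^ (ε / 2 * k) * (4 : ℝ) ^ (ε / 4 * k)) ≤ 4 ^ k := by
      rw [← Real.rpow_add (by norm_num), ← Real.rpow_add (by norm_num),
        ← Real.rpow_natCast (4 : ℝ) k]
      refine Real.rpow_le_rpow_of_exponent_le (by norm_num) ?_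
      nlinarith
    have hq : (0 : ℝ) < (4 : ℝ) ^ (ε / 2 * k) * (4 : ℝ) ^ (ε / 4 * k) := by positivity
    have h1 : σ / (4 * 4 ^ m) * (4 : ℝ) ^ ((1 - ε) * k) ≤ I := by
      have h2 : σ / 2 * ((4 : ℝ) ^ ((1 - ε) * k) * ((4 : ℝ) ^ (ε / 2 * k) * (4 : ℝ) ^ (ε / 4 * k))) ≤
          I * ((4 : ℝ) ^ (ε / 2 * k) * (4 ^ m * (4 : ℝ) ^ (ε / 4 * k)) * 2) :=
        (mul_le_mul_of_nonneg_left hfin (by positivity)).trans hmain
      have h3 : (σ / 2 * (4 : ℝ) ^ ((1 - ε) * k)) *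
          ((4 : ℝ) ^ (ε / 2 * k) * (4 : ℝ) ^ (ε / 4 * k)) ≤
          (I * 4 ^ m * 2) * ((4 : ℝ) ^ (ε / 2 * k) * (4 : ℝ) ^ (ε / 4 * k)) := by
        calc _ = σ / 2 * ((4 : ℝ) ^ ((1 - ε) * k) *
              ((4 : ℝ) ^ (ε / 2 * k) * (4 : ℝ) ^ (ε / 4 * k))) := by ring
          _ ≤ _ := h2
          _ = _ := by ring
      have h4 := le_of_mul_le_mul_right h3 hq
      rw [div_mul_eq_mul_div, div_le_iff₀ (by positivity)]
      linarith
    exact le_trans (mul_le_mul_of_nonneg_right (min_le_right _ _) (by positivity)) h1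

end Pool.Agent.Helper37EX
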