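import Mathlib
import Pool.Agent.Helper37EX.Main

/-!
# Sums of fractions with pairwise coprime denominators
-/

set_option autoImplicit false

namespace Pool.Agent.Helper37EX

open Finset Pool.Agent.Helper37HC Pool.Agent.Y359.PE
open scoped Pointwise

/-- sum of fractions -/
def frac {k : ℕ} (m : Fin k → ℤ) (n : Fin k → ℕ) (S : Finset (Fin k)) : ℚ :=
  ∑ i ∈ S, (m i : ℚ) / n i

/-- the numerators over the common denominator -/
def num {k : ℕ} (m : Fin k → ℤ) (n : Fin k → ℕ) (i : Fin k) : ℤ := by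
  classical exact m i * ∏ j ∈ univ.erase i, (n j : ℤ)

lemma frac_eq {k : ℕ} (m : Fin k → ℤ) (n : Fin k → ℕ) (hn : ∀ i, 2 ≤ n i)
    (S : Finset (Fin k)) :
    (∏ j, (n j : ℚ)) * frac m n S = ((val 0 (num m n) S : ℤ) : ℚ) := by
  classical
  unfold frac val num
  rw [Finset.mul_sum]
  push_cast
  rw [zero_add]
  refine Finset.sum_congr rfl fun i _ => ?_
  have h0 : (n i : ℚ) ≠ 0 := by
    have := hn i
    have : n i ≠ 0 := by omega
    exact_mod_cast this
  rw [← Finset.mul_prod_erase univ _ (mem_univ i)]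
  field_simp

lemma card_frac {k : ℕ} (m : Fin k → ℤ) (n : Fin k → ℕ) (hn : ∀ i, 2 ≤ n i)
    (P : Finset (Finset (Fin k) × Finset (Fin k))) :
    (P.image fun s => val 0 (num m n) s.1 * val 0 (num m n) s.2).card =
      (P.image fun s => frac m n s.1 * frac m n s.2).card := by
  classical
  have hQ : (∏ j, (n j : ℚ)) ≠ 0 := by
    refine Finset.prod_ne_zero_iff.2 fun i _ => ?_
    have := hn i
    have : n i ≠ 0 := by omega
    exact_mod_cast this
  have h1 : (P.image fun s => val 0 (num m n) s.1 * val 0 (num m n) s.2).image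
      (fun z : ℤ => (z : ℚ)) =
      (P.image fun s => frac m n s.1 * frac m n s.2).image
        (fun z : ℚ => (∏ j, (n j : ℚ)) * (∏ j, (n j : ℚ)) * z) := by
    rw [image_image, image_image]
    refine image_congr fun s _ => ?_
    simp only [Function.comp]
    push_cast
    rw [← frac_eq m n hn, ← frac_eq m n hn]
    ring
  have h2 := congrArg card h1
  rw [card_image_of_injective _ Int.cast_injective] at h2
  have h3 : Function.Injective fun z : ℚ => (∏ j, (n j : ℚ)) * (∏ j, (n j : ℚ)) * z :=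
    fun x y hxy => mul_left_cancel₀ (mul_ne_zero hQ hQ) hxy
  rw [h2]
  exact card_image_of_injective _ h3

lemma frac_exposed {k : ℕ} (m : Fin k → ℤ) (n : Fin k → ℕ) (hn : ∀ i, 2 ≤ n i)
    (hcop : ∀ i j, i ≠ j → Nat.Coprime (n i) (n j)) (M : ℕ) (i : Fin k)
    (hm : IsCoprime (m i) (n i)) (hM : M + 1 ≤ Set.ncard {j : Fin k | IsCoprime (m j) (n i)}) :
    Exposed 0 (num m n) M i := by
  classical
  have hp : (n i).minFac.Prime := Nat.minFac_prime (by have := hn i; omega)
  have hpn : (n i).minFac ∣ n i := Nat.minFac_dvd _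
  have hni : n i ≠ 0 := by have := hn i; omega
  have hpm : ∀ j, IsCoprime (m j) (n i) → ¬ (((n i).minFac : ℕ) : ℤ) ∣ m j := by
    intro j hcj hj
    have h1 := hcj.isUnit_of_dvd' hj (Int.natCast_dvd_natCast.2 hpn)
    rw [Int.isUnit_iff] at h1
    have h2 := hp.two_le
    omega
  have hpp : Prime (((n i).minFac : ℕ) : ℤ) := Nat.prime_iff_prime_int.1 hp
  have hpnj : ∀ j, j ≠ i → ¬ (((n i).minFac : ℕ) : ℤ) ∣ (n j : ℤ) := by
    intro j hj h1
    have h2 := Nat.dvd_gcd hpn (Int.natCast_dvd_natCast.1 h1)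
    rw [hcop i j (Ne.symm hj)] at h2
    exact hp.one_lt.ne' (Nat.dvd_one.1 h2)
  refine ⟨(n i).minFac, (n i).factorization (n i).minFac, hp, ?_, ?_, Or.inl ⟨Or.inl (dvd_zero _), ?_⟩⟩
  · intro j hj
    unfold num
    refine Dvd.dvd.mul_left ?_ _
    refine dvd_trans ?_ (Finset.dvd_prod_of_mem (fun l => (n l : ℤ))
      (mem_erase.2 ⟨Ne.symm hj, mem_univ i⟩))
    exact_mod_cast Nat.ordProj_dvd (n i) (n i).minFac
  · intro h1
    have he : (n i).factorization (n i).minFac ≠ 0 :=
      (hp.dvd_iff_one_le_factorization hni).1 hpn |>.trans_lt' zero_lt_one |>.ne'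
    have h2 : (((n i).minFac : ℕ) : ℤ) ∣ num m n i := (dvd_pow_self _ he).trans h1
    unfold num at h2
    rcases hpp.dvd_or_dvd h2 with h3 | h3
    · exact hpm i hm h3
    · obtain ⟨j, hj, h4⟩ := (Prime.dvd_finsetProd_iff hpp _).1 h3
      exact hpnj j (ne_of_mem_erase hj) h4
  · have e1 : {j : Fin k | IsCoprime (m j) (n i)} ⊆ insert i {j : Fin k | j ≠ i ∧
        ¬ (((n i).minFac : ℕ) : ℤ) ^ ((n i).factorization (n i).minFac + 1) ∣ num m n j} := by
      intro j hj
      rw [Set.mem_ofPred_eq] at hj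
      by_cases hji : j = i
      · rw [hji]; exact Set.mem_insert _ _
      right
      refine ⟨hji, fun h1 => ?_⟩
      unfold num at h1
      rw [← Finset.mul_prod_erase (univ.erase j) _ (mem_erase.2 ⟨Ne.symm hji, mem_univ i⟩)] at h1
      have h2 : m j * ((n i : ℤ) * ∏ l ∈ (univ.erase j).erase i, (n l : ℤ)) =
          (m j * ∏ l ∈ (univ.erase j).erase i, (n l : ℤ)) * n i := by ring
      rw [h2] at h1
      have h3 : ¬ (((n i).minFac : ℕ) : ℤ) ∣ m j * ∏ l ∈ (univ.erase j).erase i, (n l : ℤ) := by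
        intro h4
        rcases hpp.dvd_or_dvd h4 with h5 | h5
        · exact hpm j hj h5
        · obtain ⟨l, hl, h6⟩ := (Prime.dvd_finsetProd_iff hpp _).1 h5
          exact hpnj l (ne_of_mem_erase hl) h6
      have h4 := hpp.pow_dvd_of_dvd_mul_left _ h3 h1
      have h5 : (n i).minFac ^ ((n i).factorization (n i).minFac + 1) ∣ n i := by
        exact_mod_cast h4
      exact Nat.pow_succ_factorization_not_dvd hni hp h5
    have e2 := (Set.ncard_le_ncard e1 (Set.toFinite _)).trans (Set.ncard_insert_le _ _)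
    omega

lemma image_mul {R : Type} [CommRing R] [DecidableEq R] {k : ℕ} (f : Finset (Fin k) → R) :
    (univ.image f) * (univ.image f) =
      (univ : Finset (Finset (Fin k) × Finset (Fin k))).image fun s => f s.1 * f s.2 := by
  classical
  ext x
  rw [mem_mul, mem_image]
  constructor
  · rintro ⟨a, ha, b, hb, rfl⟩
    obtain ⟨S, -, rfl⟩ := mem_image.1 ha
    obtain ⟨T, -, rfl⟩ := mem_image.1 hb
    exact ⟨(S, T), mem_univ _, rfl⟩
  · rintro ⟨s, -, rfl⟩
    exact ⟨f s.1, mem_image_of_mem _ (mem_univ _), f s.2, mem_image_of_mem _ (mem_univ _), rfl⟩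

lemma set_form {R : Type} [CommRing R] [DecidableEq R] {k : ℕ} (f : Finset (Fin k) → R)
    {c ε : ℝ} (hc : 0 < c) (hε1 : ε ≤ 1)
    (h : c * (2 : ℝ) ^ ((2 - ε) * k) ≤
      ((univ : Finset (Finset (Fin k) × Finset (Fin k))).image fun s => f s.1 * f s.2).card) :
    c * ((univ.image f).card : ℝ) ^ (2 - ε) ≤ ((univ.image f) * (univ.image f)).card := by
  classical
  rw [image_mul]
  refine le_trans ?_ h
  refine mul_le_mul_of_nonneg_left ?_ hc.le
  have h1 : ((univ.image f).card : ℝ) ≤ 2 ^ k := by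
    have : (univ.image f).card ≤ 2 ^ k := by
      refine card_image_le.trans (le_of_eq ?_)
      rw [card_univ, Fintype.card_finset, Fintype.card_fin]
    exact_mod_cast this
  calc ((univ.image f).card : ℝ) ^ (2 - ε) ≤ ((2 : ℝ) ^ k) ^ (2 - ε) :=
        Real.rpow_le_rpow (Nat.cast_nonneg _) h1 (by linarith)
    _ = (2 : ℝ) ^ ((2 - ε) * k) := by
        rw [← Real.rpow_natCast, ← Real.rpow_mul (by norm_num)]
        congr 1
        ring

lemma four_two (ε : ℝ) (k : ℕ) : (4 : ℝ) ^ ((1 - ε / 2) * k) = (2 : ℝ) ^ ((2 - ε) * k) := by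
  have : (4 : ℝ) = 2 ^ (2 : ℝ) := by norm_num
  rw [this, ← Real.rpow_mul (by norm_num)]
  congr 1
  ring

end Pool.Agent.Helper37EX
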